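import Pool.Agent.K1H51.Trunc

set_option autoImplicit false

/-!
From a nonnegative crossing submodular function on a ring family to an integral vector of
prescribed parity bounded by it; and the two-way orientation of a tree.
-/

namespace Pool.Agent.K1H51.Cross

open Finset Pool.Agent.K1H51.Trunc

variable {V : Type*} [DecidableEq V] [Fintype V]

/-- **Integrality.** A crossing submodular nonnegative function `f` on a ring family `L`
containing the empty set and the whole set, of parity `q`, bounds an integral vector `w` of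
parity `q`: `|w(U)| ≤ f(U)`. -/
theorem exists_w (L : Finset V → Prop) (hL : Ring' L) (hL0 : L ∅) (hL1 : L univ)
    (f : Finset V → ℕ) (q : V → ℤ)
    (hf : ∀ A B, L A → L B → (A ∩ B).Nonempty → A ∪ B ≠ univ →
      f (A ∩ B) + f (A ∪ B) ≤ f A + f B)
    (hp : ∀ A, L A → A.Nonempty → A ≠ univ → (2 : ℤ) ∣ (f A : ℤ) - ∑ v ∈ A, q v)
    (hq : (2 : ℤ) ∣ ∑ v, q v) :
    ∃ w : V → ℤ, (∀ U, L U → U.Nonempty → U ≠ univ → ∑ v ∈ U, w v ≤ f U ∧
      -(f U : ℤ) ≤ ∑ v ∈ U, w v) ∧ ∑ v, w v = 0 ∧ ∀ v, (2 : ℤ) ∣ w v - q v := by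
  classical
  -- first truncation
  set K1 : Finset V → Prop := fun A => L A ∧ A.Nonempty ∧ A ≠ univ with hK1
  set Q1 : Finset V → Prop := fun A => A ≠ univ with hQ1
  have hQ1' : ∀ A B : Finset V, A ⊆ B → Q1 B → Q1 A := by
    intro A B hAB hB hA
    rw [hA] at hAB
    exact hB (univ_subset_iff.1 hAB)
  have hs1 : SubOn K1 Q1 f := by
    intro A B hA hB hne hu
    obtain ⟨l1, l2⟩ := hL A B hA.1 hB.1
    refine ⟨⟨l1, hne, ?_⟩, ⟨l2, hne.mono (inter_subset_left.trans subset_union_left), hu⟩,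
      hf A B hA.1 hB.1 hne hu⟩
    exact hQ1' _ _ (inter_subset_left.trans subset_union_left) hu
  have ex1 : ∀ A, L A → A ≠ univ → ∃ c, PC K1 f A c := by
    intro A hA hu
    rcases A.eq_empty_or_nonempty with h | h
    · subst h; exact ⟨0, PC.nil⟩
    · exact ⟨_, PC.single ⟨hA, h, hu⟩⟩
  set g : Finset V → ℕ := trunc K1 f with hg
  -- second truncation
  set K2 : Finset V → Prop := fun A => L Aᶜ ∧ A.Nonempty with hK2
  set Q2 : Finset V → Prop := fun _ => True with hQ2
  set f2 : Finset V → ℕ := fun A => g Aᶜ with hf2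
  have cne : ∀ A : Finset V, A.Nonempty → Aᶜ ≠ univ := by
    intro A hA h
    rw [← compl_empty, compl_inj_iff] at h
    exact hA.ne_empty h
  have hs2 : SubOn K2 Q2 f2 := by
    intro A B hA hB hne _
    obtain ⟨l1, l2⟩ := hL _ _ hA.1 hB.1
    refine ⟨⟨?_, hne⟩, ⟨?_, hne.mono (inter_subset_left.trans subset_union_left)⟩, ?_⟩
    · rw [compl_inter]; exact l2
    · rw [compl_union]; exact l1
    · simp only [hf2]
      rw [compl_inter, compl_union, add_comm]
      refine trunc_sub hQ1' hs1 (ex1 _ hA.1 (cne _ hA.2)) (ex1 _ hB.1 (cne _ hB.2)) ?_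
      rw [← compl_inter]
      exact cne _ hne
  have ex2 : ∀ A, L A → ∃ c, PC K2 f2 Aᶜ c := by
    intro A hA
    rcases Aᶜ.eq_empty_or_nonempty with h | h
    · rw [h]; exact ⟨0, PC.nil⟩
    · exact ⟨_, PC.single ⟨by rw [compl_compl]; exact hA, h⟩⟩
  set F : Finset V → ℤ := fun A => (trunc K2 f2 Aᶜ : ℤ) with hF
  have hFsub : ∀ A B, L A → L B → F (A ∩ B) + F (A ∪ B) ≤ F A + F B := by
    intro A B hA hB
    have := trunc_sub (Q := Q2) (fun _ _ _ _ => trivial) hs2 (ex2 A hA) (ex2 B hB) trivial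
    show ((trunc K2 f2 (A ∩ B)ᶜ : ℕ) : ℤ) + (trunc K2 f2 (A ∪ B)ᶜ : ℕ) ≤
      (trunc K2 f2 Aᶜ : ℕ) + (trunc K2 f2 Bᶜ : ℕ)
    rw [compl_inter, compl_union]
    omega
  have hF0 : F ∅ = 0 := by
    simp only [hF]
    have h1 : PC K2 f2 (∅ : Finset V)ᶜ 0 := by
      rcases ((∅ : Finset V)ᶜ).eq_empty_or_nonempty with h | h
      · rw [h]; exact PC.nil
      · have h2 := PC.single (K := K2) (f := f2) (S := (∅ : Finset V)ᶜ)
          ⟨by rw [compl_compl]; exact hL0, h⟩
        have h3 : f2 (∅ : Finset V)ᶜ = 0 := by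
          simp only [hf2]
          rw [compl_compl]
          exact trunc_empty
        rw [h3] at h2
        exact h2
    have := trunc_le h1
    omega
  have hF1 : F univ = 0 := by
    simp only [hF]
    rw [compl_univ, trunc_empty]
    rfl
  have hFnn : ∀ A, 0 ≤ F A := fun A => by simp only [hF]; exact Int.natCast_nonneg _
  have hFle : ∀ A, L A → A.Nonempty → A ≠ univ → F A ≤ f A := by
    intro A hA hne hu
    have h1 : g A ≤ f A := trunc_le (PC.single ⟨hA, hne, hu⟩)
    have h2 : (Aᶜ).Nonempty := by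
      rw [nonempty_iff_ne_empty]
      intro h
      rw [← compl_univ, compl_inj_iff] at h
      exact hu h
    have h3 : trunc K2 f2 Aᶜ ≤ f2 Aᶜ :=
      trunc_le (PC.single ⟨by rw [compl_compl]; exact hA, h2⟩)
    have h4 : f2 Aᶜ = g A := by simp only [hf2]; rw [compl_compl]
    simp only [hF]
    exact_mod_cast (by omega : trunc K2 f2 Aᶜ ≤ f A)
  have hcomp : ∀ A : Finset V, ∑ v ∈ Aᶜ, q v = ∑ v, q v - ∑ v ∈ A, q v := by
    intro A
    rw [← sum_add_sum_compl A q]
    ring
  have pg : ∀ A, L A → A ≠ univ → (2 : ℤ) ∣ (g A : ℤ) - ∑ v ∈ A, q v := by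
    intro A hA hu
    exact PC.parity (fun S hS => hp S hS.1 hS.2.1 hS.2.2) (trunc_spec (ex1 A hA hu))
  have pF : ∀ A, L A → (2 : ℤ) ∣ F A - ∑ v ∈ A, q v := by
    intro A hA
    have h1 : (2 : ℤ) ∣ (trunc K2 f2 Aᶜ : ℤ) - ∑ v ∈ Aᶜ, q v := by
      refine PC.parity (q := q) (fun S hS => ?_) (trunc_spec (ex2 A hA))
      have h2 := pg Sᶜ hS.1 (cne _ hS.2)
      have h3 := hcomp S
      simp only [hf2]
      have e : (g Sᶜ : ℤ) - ∑ v ∈ S, q v =
        ((g Sᶜ : ℤ) - ∑ v ∈ Sᶜ, q v) + ∑ v, q v - 2 * ∑ v ∈ S, q v := by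
        rw [h3]; ring
      rw [e]
      exact dvd_sub (dvd_add h2 hq) (dvd_mul_right _ _)
    have h3 := hcomp A
    simp only [hF]
    have e : (trunc K2 f2 Aᶜ : ℤ) - ∑ v ∈ A, q v =
      ((trunc K2 f2 Aᶜ : ℤ) - ∑ v ∈ Aᶜ, q v) + ∑ v, q v - 2 * ∑ v ∈ A, q v := by
      rw [h3]; ring
    rw [e]
    exact dvd_sub (dvd_add h1 hq) (dvd_mul_right _ _)
  obtain ⟨w, hw, hwq⟩ := sandwich univ L F F q (fun U _ => subset_univ U) hL0 hL hFsub hFsub
    (fun U _ => add_nonneg (hFnn U) (hFnn U)) hF0 hF0 pF pF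
  refine ⟨w, ?_, ?_, hwq⟩
  · intro U hU hne hu
    obtain ⟨h1, h2⟩ := hw U hU
    have h3 := hFle U hU hne hu
    constructor <;> linarith
  · obtain ⟨h1, h2⟩ := hw univ hL1
    rw [hF1] at h1 h2
    omega

/-! ### Graphs -/

/-- The number of adjacent pairs leaving `U`. -/
noncomputable def dd (G : SimpleGraph V) (U : Finset V) : ℕ := by
  classical
  exact (univ.filter (fun p : V × V => p.1 ∈ U ∧ p.2 ∉ U ∧ G.Adj p.1 p.2)).card

/-- Indicator of adjacency. -/
noncomputable def ad (G : SimpleGraph V) (x y : V) : ℤ := by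
  classical
  exact if G.Adj x y then 1 else 0

theorem ad_comm (G : SimpleGraph V) (x y : V) : ad G x y = ad G y x := by
  unfold ad
  by_cases h : G.Adj x y
  · rw [if_pos h, if_pos h.symm]
  · rw [if_neg h, if_neg fun h' => h h'.symm]

theorem dd_eq (G : SimpleGraph V) (U : Finset V) :
    (dd G U : ℤ) = ∑ x, ∑ y, if x ∈ U ∧ y ∉ U then ad G x y else 0 := by
  classical
  unfold dd ad
  rw [card_filter, Nat.cast_sum, Fintype.sum_prod_type]
  refine sum_congr rfl fun x _ => sum_congr rfl fun y _ => ?_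
  by_cases h1 : x ∈ U <;> by_cases h2 : y ∈ U <;> by_cases h3 : G.Adj x y <;> simp [h1, h2, h3]

theorem dd_sub (G : SimpleGraph V) (A B : Finset V) :
    dd G (A ∩ B) + dd G (A ∪ B) ≤ dd G A + dd G B := by
  have : (dd G (A ∩ B) : ℤ) + dd G (A ∪ B) ≤ dd G A + dd G B := by
    simp only [dd_eq, ← sum_add_distrib]
    refine sum_le_sum fun x _ => sum_le_sum fun y _ => ?_
    have h : 0 ≤ ad G x y := by unfold ad; split_ifs <;> simp
    simp only [mem_inter, mem_union]
    by_cases h1 : x ∈ A <;> by_cases h2 : x ∈ B <;> by_cases h3 : y ∈ A <;> by_cases h4 : y ∈ B <;>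
      simp [h1, h2, h3, h4] <;> linarith
  exact_mod_cast this

theorem sum_split (φ : V → V → ℤ) (U : Finset V) :
    ∑ x ∈ U, ∑ y, φ x y = ∑ x ∈ U, ∑ y ∈ U, φ x y +
      ∑ x, ∑ y, if x ∈ U ∧ y ∉ U then φ x y else 0 := by
  classical
  have h1 : ∑ x, ∑ y, (if x ∈ U ∧ y ∉ U then φ x y else 0) = ∑ x ∈ U, ∑ y ∈ Uᶜ, φ x y := by
    rw [← sum_filter_add_sum_filter_not univ (fun x => x ∈ U)]
    have : ∑ x ∈ univ.filter (fun x => ¬ x ∈ U), ∑ y, (if x ∈ U ∧ y ∉ U then φ x y else 0) = 0 := by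
      refine sum_eq_zero fun x hx => sum_eq_zero fun y _ => ?_
      rw [mem_filter] at hx
      simp [hx.2]
    rw [this, add_zero]
    have e : univ.filter (fun x => x ∈ U) = U := by ext; simp
    rw [e]
    refine sum_congr rfl fun x hx => ?_
    rw [← sum_filter_add_sum_filter_not univ (fun y => y ∉ U)]
    have e2 : univ.filter (fun y => y ∉ U) = Uᶜ := by ext; simp
    rw [e2]
    have : ∑ y ∈ univ.filter (fun y => ¬ y ∉ U), (if x ∈ U ∧ y ∉ U then φ x y else 0) = 0 := by
      refine sum_eq_zero fun y hy => ?_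
      rw [mem_filter] at hy
      simp [hy.2]
    rw [this, add_zero]
    refine sum_congr rfl fun y hy => ?_
    rw [mem_compl] at hy
    simp [hx, hy]
  rw [h1, ← sum_add_distrib]
  exact sum_congr rfl fun x _ => (sum_add_sum_compl U _).symm

theorem even_inner (G : SimpleGraph V) (U : Finset V) :
    (2 : ℤ) ∣ ∑ x ∈ U, ∑ y ∈ U, ad G x y := by
  classical
  induction U using Finset.induction with
  | empty => simp
  | insert a U ha ih =>
    rw [sum_insert ha, sum_insert ha]
    have h1 : ∑ x ∈ U, ∑ y ∈ insert a U, ad G x y =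
        ∑ x ∈ U, ad G a x + ∑ x ∈ U, ∑ y ∈ U, ad G x y := by
      rw [← sum_add_distrib]
      refine sum_congr rfl fun x _ => ?_
      rw [sum_insert ha, ad_comm G x a]
    have h2 : ad G a a = 0 := by unfold ad; simp
    rw [h1, h2]
    have e : 0 + ∑ x ∈ U, ad G a x + (∑ x ∈ U, ad G a x + ∑ x ∈ U, ∑ y ∈ U, ad G x y) =
      2 * ∑ x ∈ U, ad G a x + ∑ x ∈ U, ∑ y ∈ U, ad G x y := by ring
    rw [e]
    exact dvd_add (dvd_mul_right _ _) ih

/-- The degree as an integer. -/
noncomputable def dgr (G : SimpleGraph V) (v : V) : ℤ := ∑ y, ad G v y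

theorem dd_parity (G : SimpleGraph V) (U : Finset V) :
    (2 : ℤ) ∣ (dd G U : ℤ) - ∑ v ∈ U, dgr G v := by
  unfold dgr
  rw [sum_split, dd_eq]
  have e : ∀ a b : ℤ, b - (a + b) = -a := fun a b => by ring
  rw [e, dvd_neg]
  exact even_inner G U

/-- An integer flow on a connected graph with prescribed divergence. -/
theorem flow_walk (G : SimpleGraph V) {a b : V} (p : G.Walk a b) :
    ∃ x : V → V → ℤ, (∀ u v, x u v = -x v u) ∧ (∀ u v, ¬ G.Adj u v → x u v = 0) ∧
      ∀ v, ∑ u, x v u = (if v = a then 1 else 0) - (if v = b then 1 else 0) := by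
  induction p with
  | nil => exact ⟨fun _ _ => 0, by simp, by simp, by simp⟩
  | @cons a c b h p ih =>
    obtain ⟨x, h1, h2, h3⟩ := ih
    refine ⟨fun u v => x u v + ((if u = a ∧ v = c then 1 else 0) -
      (if u = c ∧ v = a then 1 else 0)), ?_, ?_, ?_⟩
    · intro u v
      show x u v + _ = -(x v u + _)
      rw [h1 u v]
      have e1 : (u = a ∧ v = c) ↔ (v = c ∧ u = a) := and_comm
      have e2 : (u = c ∧ v = a) ↔ (v = a ∧ u = c) := and_comm
      simp only [e1, e2]
      ring
    · intro u v huv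
      show x u v + _ = 0
      rw [h2 u v huv]
      have n1 : ¬ (u = a ∧ v = c) := by rintro ⟨rfl, rfl⟩; exact huv h
      have n2 : ¬ (u = c ∧ v = a) := by rintro ⟨rfl, rfl⟩; exact huv h.symm
      simp [n1, n2]
    · intro v
      rw [sum_add_distrib, h3 v, sum_sub_distrib]
      have s1 : ∑ u : V, (if v = a ∧ u = c then (1 : ℤ) else 0) = if v = a then 1 else 0 := by
        by_cases hv : v = a <;> simp [hv]
      have s2 : ∑ u : V, (if v = c ∧ u = a then (1 : ℤ) else 0) = if v = c then 1 else 0 := by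
        by_cases hv : v = c <;> simp [hv]
      rw [s1, s2]
      ring

theorem flow_exists (G : SimpleGraph V) (hG : G.Connected) (w : V → ℤ) (hw : ∑ v, w v = 0) :
    ∃ x : V → V → ℤ, (∀ u v, x u v = -x v u) ∧ (∀ u v, ¬ G.Adj u v → x u v = 0) ∧
      ∀ v, ∑ u, x v u = w v := by
  classical
  obtain ⟨r⟩ := hG.nonempty
  choose x h1 h2 h3 using fun z : V => flow_walk G (hG.preconnected z r).some
  refine ⟨fun u v => ∑ z, w z * x z u v, ?_, ?_, ?_⟩
  · intro u v
    rw [← sum_neg_distrib]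
    refine sum_congr rfl fun z _ => ?_
    rw [h1 z u v]; ring
  · intro u v huv
    refine sum_eq_zero fun z _ => ?_
    rw [h2 z u v huv, mul_zero]
  · intro v
    rw [sum_comm]
    simp only [← mul_sum, h3]
    simp only [mul_sub, sum_sub_distrib]
    have e1 : ∑ z, w z * (if v = z then 1 else 0) = w v := by simp
    have e2 : ∑ z, w z * (if v = r then 1 else 0) = 0 := by
      rw [← sum_mul, hw, zero_mul]
    rw [e1, e2, sub_zero]

/-- Summation of an antisymmetric function over a square vanishes. -/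
theorem anti_sum (x : V → V → ℤ) (hx : ∀ u v, x u v = -x v u) (U : Finset V) :
    ∑ u ∈ U, ∑ v ∈ U, x u v = 0 := by
  have h : ∑ u ∈ U, ∑ v ∈ U, x u v = -∑ u ∈ U, ∑ v ∈ U, x u v := by
    conv_lhs => rw [sum_comm]
    rw [← sum_neg_distrib]
    refine sum_congr rfl fun u _ => ?_
    rw [← sum_neg_distrib]
    exact sum_congr rfl fun v _ => hx v u
  omega

/-- In a tree the flow values are odd when the divergence has the parity of the degree. -/
theorem flow_odd (G : SimpleGraph V) (hG : G.IsTree) (w : V → ℤ)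
    (hw : ∀ v, (2 : ℤ) ∣ w v - dgr G v) (x : V → V → ℤ) (h1 : ∀ u v, x u v = -x v u)
    (h2 : ∀ u v, ¬ G.Adj u v → x u v = 0) (h3 : ∀ v, ∑ u, x v u = w v) {a b : V}
    (hab : G.Adj a b) : ¬ (2 : ℤ) ∣ x a b := by
  classical
  set H := G.deleteEdges {s(a, b)} with hH
  set S : Finset V := univ.filter (fun z => H.Reachable a z) with hS
  have haS : a ∈ S := by rw [hS, mem_filter]; exact ⟨mem_univ _, SimpleGraph.Reachable.refl a⟩
  have hbS : b ∉ S := by
    rw [hS, mem_filter]
    rintro ⟨_, h⟩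
    have hbr := (SimpleGraph.isAcyclic_iff_forall_adj_isBridge.1 hG.isAcyclic) hab
    rw [SimpleGraph.isBridge_iff] at hbr
    exact hbr h
  have hcross : ∀ u v, u ∈ S → v ∉ S → G.Adj u v → u = a ∧ v = b := by
    intro u v hu hv huv
    by_contra hne
    apply hv
    rw [hS, mem_filter] at hu ⊢
    refine ⟨mem_univ _, hu.2.trans (SimpleGraph.Adj.reachable ?_)⟩
    rw [hH, SimpleGraph.deleteEdges_adj]
    refine ⟨huv, ?_⟩
    rw [Set.mem_singleton_iff, Sym2.eq_iff]
    rintro (⟨rfl, rfl⟩ | ⟨rfl, rfl⟩)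
    · exact hne ⟨rfl, rfl⟩
    · exact hbS (by rw [hS, mem_filter]; exact hu)
  have hsum : ∀ φ : V → V → ℤ, (∀ u v, ¬ G.Adj u v → φ u v = 0) →
      ∑ u, ∑ v, (if u ∈ S ∧ v ∉ S then φ u v else 0) = φ a b := by
    intro φ hφ
    rw [sum_eq_single a, sum_eq_single b]
    · rw [if_pos ⟨haS, hbS⟩]
    · intro v _ hv
      split_ifs with h
      · by_cases hadj : G.Adj a v
        · exact absurd (hcross a v h.1 h.2 hadj).2 hv
        · exact hφ _ _ hadj
      · rfl
    · intro h; exact absurd (mem_univ _) h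
    · intro u _ hu
      refine sum_eq_zero fun v _ => ?_
      split_ifs with h
      · by_cases hadj : G.Adj u v
        · exact absurd (hcross u v h.1 h.2 hadj).1 hu
        · exact hφ _ _ hadj
      · rfl
    · intro h; exact absurd (mem_univ _) h
  have e1 : ∑ v ∈ S, w v = x a b := by
    have : ∑ v ∈ S, w v = ∑ v ∈ S, ∑ u, x v u := sum_congr rfl fun v _ => (h3 v).symm
    rw [this, sum_split, anti_sum x h1, zero_add, hsum x h2]
  have e2 : (dd G S : ℤ) = 1 := by
    rw [dd_eq, hsum (ad G) (fun u v h => by unfold ad; rw [if_neg h])]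
    unfold ad
    rw [if_pos hab]
  have e3 := dd_parity G S
  have e4 : (2 : ℤ) ∣ ∑ v ∈ S, (w v - dgr G v) := dvd_sum fun v _ => hw v
  rw [sum_sub_distrib, e1] at e4
  rw [e2] at e3
  omega

/-- **The theorem for finsets.** -/
theorem main (G : SimpleGraph V) (hG : G.IsTree) (L : Finset V → Prop) (hL : Ring' L)
    (hL0 : L ∅) (hL1 : L univ) (hd : ∀ U, L U → U.Nonempty → U ≠ univ → 2 ≤ dd G U) :
    ∃ D : V → V → Prop, (∀ u v, G.Adj u v ↔ (D u v ∨ D v u)) ∧ (∀ u v, D u v → ¬ D v u) ∧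
      ∀ U, L U → U.Nonempty → U ≠ univ →
        (∃ u ∈ U, ∃ v, v ∉ U ∧ D u v) ∧ (∃ u ∈ U, ∃ v, v ∉ U ∧ D v u) := by
  classical
  have hsumdeg : (2 : ℤ) ∣ ∑ v, dgr G v := by
    have h := dd_parity G univ
    have h0 : (dd G univ : ℤ) = 0 := by
      rw [dd_eq]
      exact sum_eq_zero fun x _ => sum_eq_zero fun y _ => by simp
    rw [h0, zero_sub, dvd_neg] at h
    exact h
  obtain ⟨w, hw, hw0, hwq⟩ := exists_w L hL hL0 hL1 (fun U => dd G U - 2) (dgr G)
    (by
      intro A B hA hB hne hu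
      have hAne : A.Nonempty := hne.mono inter_subset_left
      have hBne : B.Nonempty := hne.mono inter_subset_right
      have hAu : A ≠ univ := by
        rintro rfl; apply hu; ext; simp
      have hBu : B ≠ univ := by
        rintro rfl; apply hu; ext; simp
      have hIu : A ∩ B ≠ univ := by
        intro h
        apply hAu
        rw [← univ_subset_iff, ← h]
        exact inter_subset_left
      have hUne : (A ∪ B).Nonempty := hAne.mono subset_union_left
      obtain ⟨l1, l2⟩ := hL A B hA hB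
      have a1 := hd A hA hAne hAu
      have a2 := hd B hB hBne hBu
      have a3 := hd _ l1 hne hIu
      have a4 := hd _ l2 hUne hu
      have a5 := dd_sub G A B
      show dd G (A ∩ B) - 2 + (dd G (A ∪ B) - 2) ≤ dd G A - 2 + (dd G B - 2)
      omega)
    (by
      intro A hA hne hu
      have a1 := hd A hA hne hu
      have a2 := dd_parity G A
      show (2 : ℤ) ∣ ((dd G A - 2 : ℕ) : ℤ) - ∑ v ∈ A, dgr G v
      rw [Nat.cast_sub a1]
      push_cast
      omega) hsumdeg
  obtain ⟨x, h1, h2, h3⟩ := flow_exists G hG.1 w hw0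
  have hodd : ∀ {a b : V}, G.Adj a b → ¬ (2 : ℤ) ∣ x a b := fun hab =>
    flow_odd G hG w hwq x h1 h2 h3 hab
  refine ⟨fun u v => G.Adj u v ∧ 0 < x u v, ?_, ?_, ?_⟩
  · intro u v
    constructor
    · intro h
      have ho := hodd h
      rcases lt_trichotomy (x u v) 0 with h' | h' | h'
      · right
        refine ⟨h.symm, ?_⟩
        have := h1 u v
        omega
      · rw [h'] at ho; exact absurd (dvd_zero _) ho
      · exact Or.inl ⟨h, h'⟩
    · rintro (h | h)
      · exact h.1
      · exact h.1.symm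
  · rintro u v ⟨_, h⟩ ⟨_, h'⟩
    have := h1 u v
    omega
  · intro U hU hne hu
    obtain ⟨b1, b2⟩ := hw U hU hne hu
    have hd2 := hd U hU hne hu
    have e1 : ∑ v ∈ U, w v = ∑ u, ∑ v, (if u ∈ U ∧ v ∉ U then x u v else 0) := by
      have : ∑ v ∈ U, w v = ∑ v ∈ U, ∑ u, x v u := sum_congr rfl fun v _ => (h3 v).symm
      rw [this, sum_split, anti_sum x h1, zero_add]
    have c1 : ((dd G U - 2 : ℕ) : ℤ) = (dd G U : ℤ) - 2 := by
      rw [Nat.cast_sub hd2]; rfl
    rw [c1] at b1 b2
    constructor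
    · by_contra hcon
      push Not at hcon
      have : ∑ u, ∑ v, (if u ∈ U ∧ v ∉ U then x u v else 0) ≤ -(dd G U : ℤ) := by
        rw [dd_eq, ← sum_neg_distrib]
        refine sum_le_sum fun u _ => ?_
        rw [← sum_neg_distrib]
        refine sum_le_sum fun v _ => ?_
        split_ifs with h
        · unfold ad
          by_cases hadj : G.Adj u v
          · rw [if_pos hadj]
            have h4 := hcon u h.1 v h.2 hadj
            have h5 := hodd hadj
            omega
          · rw [if_neg hadj, h2 u v hadj]; simp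
        · simp
      rw [← e1] at this
      omega
    · by_contra hcon
      push Not at hcon
      have : (dd G U : ℤ) ≤ ∑ u, ∑ v, (if u ∈ U ∧ v ∉ U then x u v else 0) := by
        rw [dd_eq]
        refine sum_le_sum fun u _ => sum_le_sum fun v _ => ?_
        split_ifs with h
        · unfold ad
          by_cases hadj : G.Adj u v
          · rw [if_pos hadj]
            have h4 := hcon u h.1 v h.2 hadj.symm
            have h5 := hodd hadj
            have h6 := h1 u v
            omega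
          · rw [if_neg hadj, h2 u v hadj]
        · exact le_rfl
      rw [← e1] at this
      omega

end Pool.Agent.K1H51.Cross
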