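import Mathlib

set_option autoImplicit false

/-!
Lower truncation of a set function which is submodular on certain intersecting pairs, and the
discrete sandwich theorem with parity on a ring family.
-/

namespace Pool.Agent.K1H51.Trunc

open Finset

variable {V : Type*} [DecidableEq V]

/-- `PC K f X c`: the set `X` is a disjoint union of sets from `K` of total `f`-value `c`. -/
inductive PC (K : Finset V → Prop) (f : Finset V → ℕ) : Finset V → ℕ → Prop
  | nil : PC K f ∅ 0
  | cons (S Z : Finset V) (c : ℕ) : K S → Disjoint S Z → PC K f Z c → PC K f (S ∪ Z) (f S + c)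

variable {K : Finset V → Prop} {f : Finset V → ℕ}

theorem PC.single {S : Finset V} (h : K S) : PC K f S (f S) := by
  have := PC.cons (K := K) (f := f) S ∅ 0 h (disjoint_empty_right S) PC.nil
  simpa using this

theorem PC.append {A B : Finset V} {a b : ℕ} (hA : PC K f A a) (hB : PC K f B b)
    (hd : Disjoint A B) : PC K f (A ∪ B) (a + b) := by
  induction hA with
  | nil => simpa using hB
  | cons S Z c hS hSZ _ ih =>
    rw [disjoint_union_left] at hd
    have h1 := ih hd.2
    have h2 := PC.cons (K := K) (f := f) S (Z ∪ B) (c + b) hS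
      (disjoint_union_right.2 ⟨hSZ, hd.1⟩) h1
    rw [union_assoc, add_assoc]
    exact h2

/-- The crossing-type submodularity hypothesis. -/
def SubOn (K Q : Finset V → Prop) (f : Finset V → ℕ) : Prop :=
  ∀ A B, K A → K B → (A ∩ B).Nonempty → Q (A ∪ B) →
    K (A ∩ B) ∧ K (A ∪ B) ∧ f (A ∩ B) + f (A ∪ B) ≤ f A + f B

theorem lt_single {Q : Finset V → Prop} (hQ : ∀ A B, A ⊆ B → Q B → Q A) (hf : SubOn K Q f)
    {Z : Finset V} {c : ℕ} (hZ : PC K f Z c) :
    ∀ S, K S → Q (S ∪ Z) → ∃ a b, PC K f (S ∩ Z) a ∧ PC K f (S ∪ Z) b ∧ a + b ≤ f S + c := by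
  induction hZ with
  | nil =>
    intro S hS _
    refine ⟨0, f S, ?_, ?_, ?_⟩
    · simpa using (PC.nil : PC K f ∅ 0)
    · simpa using (PC.single hS : PC K f S (f S))
    · omega
  | cons Z1 Z' c' hZ1 hd _ ih =>
    intro S hS hq
    by_cases hint : (S ∩ Z1).Nonempty
    · have hq1 : Q (S ∪ Z1) := hQ _ _ (union_subset_union_right subset_union_left) hq
      obtain ⟨h1, h2, h3⟩ := hf S Z1 hS hZ1 hint hq1
      have hq2 : Q ((S ∪ Z1) ∪ Z') := by rw [union_assoc]; exact hq
      obtain ⟨a, b, ha, hb, hab⟩ := ih (S ∪ Z1) h2 hq2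
      refine ⟨f (S ∩ Z1) + a, b, ?_, ?_, by omega⟩
      · have e1 : (S ∪ Z1) ∩ Z' = S ∩ Z' := by
          rw [union_inter_distrib_right, disjoint_iff_inter_eq_empty.1 hd, union_empty]
        rw [e1] at ha
        rw [inter_union_distrib_left]
        refine PC.cons _ _ _ h1 ?_ ha
        exact disjoint_of_subset_left inter_subset_right
          (disjoint_of_subset_right inter_subset_right hd)
      · rw [← union_assoc]; exact hb
    · rw [not_nonempty_iff_eq_empty] at hint
      have hq2 : Q (S ∪ Z') := hQ _ _ (union_subset_union_right subset_union_right) hq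
      obtain ⟨a, b, ha, hb, hab⟩ := ih S hS hq2
      refine ⟨a, f Z1 + b, ?_, ?_, by omega⟩
      · rw [inter_union_distrib_left, hint, empty_union]; exact ha
      · have e1 : S ∪ (Z1 ∪ Z') = Z1 ∪ (S ∪ Z') := by
          rw [← union_assoc, union_comm S Z1, union_assoc]
        rw [e1]
        refine PC.cons _ _ _ hZ1 ?_ hb
        rw [disjoint_union_right]
        exact ⟨(disjoint_iff_inter_eq_empty.2 hint).symm, hd⟩

theorem lt_full {Q : Finset V → Prop} (hQ : ∀ A B, A ⊆ B → Q B → Q A) (hf : SubOn K Q f)
    {X : Finset V} {c : ℕ} (hX : PC K f X c) :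
    ∀ Y d, PC K f Y d → Q (X ∪ Y) →
      ∃ a b, PC K f (X ∩ Y) a ∧ PC K f (X ∪ Y) b ∧ a + b ≤ c + d := by
  induction hX with
  | nil =>
    intro Y d hY _
    refine ⟨0, d, ?_, ?_, by omega⟩
    · simpa using (PC.nil : PC K f ∅ 0)
    · simpa using hY
  | cons S X' c' hS hd _ ih =>
    intro Y d hY hq
    have hq1 : Q (X' ∪ Y) := hQ _ _ (by
      rw [union_assoc]; exact subset_union_right) hq
    obtain ⟨a', b', ha', hb', hab'⟩ := ih Y d hY hq1
    have hq2 : Q (S ∪ (X' ∪ Y)) := by rw [← union_assoc]; exact hq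
    obtain ⟨a, b, ha, hb, hab⟩ := lt_single hQ hf hb' S hS hq2
    refine ⟨a + a', b, ?_, ?_, by omega⟩
    · have e1 : S ∩ (X' ∪ Y) = S ∩ Y := by
        rw [inter_union_distrib_left, disjoint_iff_inter_eq_empty.1 hd, empty_union]
      rw [e1] at ha
      rw [union_inter_distrib_right]
      refine PC.append ha ha' ?_
      exact disjoint_of_subset_left inter_subset_left
        (disjoint_of_subset_right inter_subset_left hd)
    · rw [union_assoc]; exact hb

/-- The lower truncation. -/
noncomputable def trunc (K : Finset V → Prop) (f : Finset V → ℕ) (X : Finset V) : ℕ :=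
  sInf {c | PC K f X c}

theorem trunc_spec {X : Finset V} (h : ∃ c, PC K f X c) : PC K f X (trunc K f X) :=
  Nat.sInf_mem (s := {c | PC K f X c}) h

theorem trunc_le {X : Finset V} {c : ℕ} (h : PC K f X c) : trunc K f X ≤ c :=
  Nat.sInf_le h

theorem trunc_empty : trunc K f ∅ = 0 := Nat.le_zero.1 (trunc_le PC.nil)

theorem trunc_sub {Q : Finset V → Prop} (hQ : ∀ A B, A ⊆ B → Q B → Q A) (hf : SubOn K Q f)
    {X Y : Finset V} (hX : ∃ c, PC K f X c) (hY : ∃ c, PC K f Y c) (hq : Q (X ∪ Y)) :
    trunc K f (X ∩ Y) + trunc K f (X ∪ Y) ≤ trunc K f X + trunc K f Y := by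
  obtain ⟨a, b, ha, hb, hab⟩ := lt_full hQ hf (trunc_spec hX) Y _ (trunc_spec hY) hq
  have h1 := trunc_le ha
  have h2 := trunc_le hb
  omega

/-- Parity of the truncation. -/
theorem PC.parity {q : V → ℤ} (hp : ∀ S, K S → (2 : ℤ) ∣ (f S : ℤ) - ∑ v ∈ S, q v)
    {X : Finset V} {c : ℕ} (h : PC K f X c) : (2 : ℤ) ∣ (c : ℤ) - ∑ v ∈ X, q v := by
  induction h with
  | nil => simp
  | cons S Z c hS hd _ ih =>
    rw [sum_union hd]
    have := hp S hS
    push_cast
    have e : ((f S : ℤ) + c - (∑ v ∈ S, q v + ∑ v ∈ Z, q v)) =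
      ((f S : ℤ) - ∑ v ∈ S, q v) + ((c : ℤ) - ∑ v ∈ Z, q v) := by ring
    rw [e]
    exact dvd_add this ih

/-! ### The sandwich theorem -/

/-- The shift of the value when `s` is a member. -/
def sh (s : V) (a : ℤ) (U : Finset V) : ℤ := if s ∈ U then a else 0

theorem sh_mod (s : V) (a : ℤ) (U W : Finset V) :
    sh s a (U ∩ W) + sh s a (U ∪ W) = sh s a U + sh s a W := by
  unfold sh
  by_cases h1 : s ∈ U <;> by_cases h2 : s ∈ W <;> simp [h1, h2]

/-- Minimum over the two lifts. -/
noncomputable def tr (L : Finset V → Prop) (s : V) (a : ℤ) (φ : Finset V → ℤ) (W : Finset V) :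
    ℤ := by
  classical
  exact if L W then (if L (insert s W) then min (φ W) (φ (insert s W) - a) else φ W)
    else φ (insert s W) - a

theorem tr_le {L : Finset V → Prop} {s : V} {a : ℤ} {φ : Finset V → ℤ} {U : Finset V}
    (hU : L U) : tr L s a φ (U.erase s) ≤ φ U - sh s a U := by
  unfold tr sh
  by_cases hs : s ∈ U
  · rw [insert_erase hs, if_pos hs, if_pos hU]
    split_ifs
    · exact min_le_right _ _
    · exact le_rfl
  · rw [erase_eq_of_notMem hs, if_pos hU, if_neg hs, sub_zero]
    split_ifs
    · exact min_le_left _ _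
    · exact le_rfl

theorem tr_eq {L : Finset V → Prop} {s : V} {a : ℤ} {φ : Finset V → ℤ} {W : Finset V}
    (hs : s ∉ W) (hW : L W ∨ L (insert s W)) :
    ∃ U, L U ∧ U.erase s = W ∧ tr L s a φ W = φ U - sh s a U := by
  unfold tr sh
  by_cases h1 : L W
  · by_cases h2 : L (insert s W)
    · rw [if_pos h1, if_pos h2]
      rcases min_choice (φ W) (φ (insert s W) - a) with h | h
      · exact ⟨W, h1, erase_eq_of_notMem hs, by rw [h, if_neg hs, sub_zero]⟩
      · exact ⟨insert s W, h2, erase_insert hs, by rw [h, if_pos (mem_insert_self s W)]⟩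
    · rw [if_pos h1, if_neg h2]
      exact ⟨W, h1, erase_eq_of_notMem hs, by rw [if_neg hs, sub_zero]⟩
  · rw [if_neg h1]
    have h2 := hW.resolve_left h1
    exact ⟨insert s W, h2, erase_insert hs, by rw [if_pos (mem_insert_self s W)]⟩

/-- A ring family. -/
def Ring' (L : Finset V → Prop) : Prop := ∀ A B, L A → L B → L (A ∩ B) ∧ L (A ∪ B)

theorem erase_inter' (U W : Finset V) (s : V) : (U ∩ W).erase s = U.erase s ∩ W.erase s := by
  ext x; simp only [mem_erase, mem_inter]; tauto

theorem erase_union' (U W : Finset V) (s : V) : (U ∪ W).erase s = U.erase s ∪ W.erase s := by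
  ext x; simp only [mem_erase, mem_union]; tauto

theorem tr_sub {L : Finset V → Prop} (hL : Ring' L) {s : V} {a : ℤ} {φ : Finset V → ℤ}
    (hφ : ∀ A B, L A → L B → φ (A ∩ B) + φ (A ∪ B) ≤ φ A + φ B) {W1 W2 : Finset V}
    (hs1 : s ∉ W1) (hs2 : s ∉ W2) (h1 : L W1 ∨ L (insert s W1)) (h2 : L W2 ∨ L (insert s W2)) :
    tr L s a φ (W1 ∩ W2) + tr L s a φ (W1 ∪ W2) ≤ tr L s a φ W1 + tr L s a φ W2 := by
  obtain ⟨U1, hU1, e1, t1⟩ := tr_eq (a := a) (φ := φ) hs1 h1
  obtain ⟨U2, hU2, e2, t2⟩ := tr_eq (a := a) (φ := φ) hs2 h2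
  obtain ⟨l1, l2⟩ := hL U1 U2 hU1 hU2
  have k1 := tr_le (s := s) (a := a) (φ := φ) l1
  have k2 := tr_le (s := s) (a := a) (φ := φ) l2
  rw [erase_inter', e1, e2] at k1
  rw [erase_union', e1, e2] at k2
  have k3 := hφ U1 U2 hU1 hU2
  have k4 := sh_mod s a U1 U2
  rw [t1, t2]
  linarith

/-- **Sandwich theorem with parity.** -/
theorem sandwich (S : Finset V) : ∀ (L : Finset V → Prop) (f h : Finset V → ℤ) (q : V → ℤ),
    (∀ U, L U → U ⊆ S) → L ∅ → Ring' L →
    (∀ A B, L A → L B → f (A ∩ B) + f (A ∪ B) ≤ f A + f B) →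
    (∀ A B, L A → L B → h (A ∩ B) + h (A ∪ B) ≤ h A + h B) →
    (∀ U, L U → 0 ≤ f U + h U) → f ∅ = 0 → h ∅ = 0 →
    (∀ U, L U → (2 : ℤ) ∣ f U - ∑ v ∈ U, q v) → (∀ U, L U → (2 : ℤ) ∣ h U - ∑ v ∈ U, q v) →
    ∃ w : V → ℤ, (∀ U, L U → ∑ v ∈ U, w v ≤ f U ∧ -h U ≤ ∑ v ∈ U, w v) ∧
      ∀ v, (2 : ℤ) ∣ w v - q v := by
  classical
  induction S using Finset.induction with
  | empty =>
    intro L f h q hS _ _ _ _ _ hf0 hh0 _ _
    refine ⟨q, ?_, by simp⟩
    intro U hU
    have hU0 : U = ∅ := subset_empty.1 (hS U hU)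
    subst hU0
    simp [hf0, hh0]
  | insert s S hsS ih =>
    intro L f h q hS hL0 hL hf hh hfh hf0 hh0 pf ph
    -- choice of the value at `s`
    obtain ⟨α, hαq, hαu, hαl⟩ : ∃ α : ℤ, (2 : ℤ) ∣ α - q s ∧
        (∀ Y, s ∉ Y → L Y → L (insert s Y) → α ≤ f (insert s Y) + h Y) ∧
        (∀ X, s ∉ X → L X → L (insert s X) → -h (insert s X) - f X ≤ α) := by
      set B : Finset (Finset V) := S.powerset.filter (fun Y => L Y ∧ L (insert s Y)) with hB
      have memB : ∀ Y, s ∉ Y → L Y → L (insert s Y) → Y ∈ B := by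
        intro Y hsY h1 h2
        rw [hB, mem_filter, mem_powerset]
        refine ⟨?_, h1, h2⟩
        intro x hx
        have := hS Y h1 hx
        rcases mem_insert.1 this with h | h
        · exact absurd (h ▸ hx) hsY
        · exact h
      have Bmem : ∀ Y ∈ B, s ∉ Y ∧ L Y ∧ L (insert s Y) := by
        intro Y hY
        rw [hB, mem_filter, mem_powerset] at hY
        exact ⟨fun h => hsS (hY.1 h), hY.2⟩
      by_cases hne : B.Nonempty
      · obtain ⟨Y0, hY0, hmin⟩ := B.exists_min_image (fun Y => f (insert s Y) + h Y) hne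
        obtain ⟨hs0, hl0, hi0⟩ := Bmem Y0 hY0
        refine ⟨f (insert s Y0) + h Y0, ?_, ?_, ?_⟩
        · have h1 := pf _ hi0
          have h2 := ph _ hl0
          rw [sum_insert hs0] at h1
          have e : f (insert s Y0) + h Y0 - q s =
            (f (insert s Y0) - (q s + ∑ v ∈ Y0, q v)) + (h Y0 - ∑ v ∈ Y0, q v)
              + 2 * ∑ v ∈ Y0, q v := by ring
          rw [e]
          exact dvd_add (dvd_add h1 h2) (dvd_mul_right _ _)
        · intro Y hsY h1 h2
          exact hmin Y (memB Y hsY h1 h2)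
        · intro X hsX h1 h2
          have a1 := hh (insert s X) Y0 h2 hl0
          have a2 := hf X (insert s Y0) h1 hi0
          have e1 : insert s X ∩ Y0 = X ∩ Y0 := by
            ext x
            simp only [mem_inter, mem_insert]
            constructor
            · rintro ⟨rfl | h, h'⟩
              · exact absurd h' hs0
              · exact ⟨h, h'⟩
            · rintro ⟨h, h'⟩
              exact ⟨Or.inr h, h'⟩
          have e2 : X ∩ insert s Y0 = X ∩ Y0 := by
            ext x
            simp only [mem_inter, mem_insert]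
            constructor
            · rintro ⟨h', rfl | h⟩
              · exact absurd h' hsX
              · exact ⟨h', h⟩
            · rintro ⟨h, h'⟩
              exact ⟨h, Or.inr h'⟩
          have e3 : insert s X ∪ Y0 = insert s (X ∪ Y0) := by
            rw [insert_union]
          have e4 : X ∪ insert s Y0 = insert s (X ∪ Y0) := by
            rw [union_insert]
          rw [e1, e3] at a1
          rw [e2, e4] at a2
          have b1 := hfh (X ∩ Y0) (hL _ _ h1 hl0).1
          have b2 : L (insert s (X ∪ Y0)) := by rw [← e4]; exact (hL _ _ h1 hi0).2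
          have b3 := hfh _ b2
          linarith
      · rw [not_nonempty_iff_eq_empty] at hne
        refine ⟨q s, by simp, ?_, ?_⟩
        · intro Y hsY h1 h2
          have := memB Y hsY h1 h2
          rw [hne] at this
          exact absurd this (notMem_empty _)
        · intro Y hsY h1 h2
          have := memB Y hsY h1 h2
          rw [hne] at this
          exact absurd this (notMem_empty _)
    -- the reduced system
    set L' : Finset V → Prop := fun W => s ∉ W ∧ (L W ∨ L (insert s W)) with hL'
    have hL'e : ∀ U, L U → L' (U.erase s) := by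
      intro U hU
      refine ⟨notMem_erase s U, ?_⟩
      by_cases hs : s ∈ U
      · right; rw [insert_erase hs]; exact hU
      · left; rw [erase_eq_of_notMem hs]; exact hU
    have hlift : ∀ W, L' W → ∃ U, L U ∧ U.erase s = W := by
      rintro W ⟨hs, h1 | h1⟩
      · exact ⟨W, h1, erase_eq_of_notMem hs⟩
      · exact ⟨_, h1, erase_insert hs⟩
    have key := ih L' (tr L s α f) (tr L s (-α) h) q ?_ ?_ ?_ ?_ ?_ ?_ ?_ ?_ ?_ ?_
    · obtain ⟨w, hw, hwq⟩ := key
      refine ⟨Function.update w s α, ?_, ?_⟩
      · intro U hU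
        obtain ⟨g1, g2⟩ := hw _ (hL'e U hU)
        have t1 := tr_le (s := s) (a := α) (φ := f) hU
        have t2 := tr_le (s := s) (a := -α) (φ := h) hU
        have e : ∑ v ∈ U, Function.update w s α v = ∑ v ∈ U.erase s, w v + sh s α U := by
          unfold sh
          by_cases hs : s ∈ U
          · rw [if_pos hs, ← sum_erase_add _ _ hs, Function.update_self]
            congr 1
            refine sum_congr rfl fun x hx => ?_
            rw [Function.update_of_ne (ne_of_mem_erase hx)]
          · rw [if_neg hs, erase_eq_of_notMem hs, add_zero]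
            refine sum_congr rfl fun x hx => ?_
            rw [Function.update_of_ne]
            rintro rfl
            exact hs hx
        have e2 : sh s (-α) U = - sh s α U := by
          unfold sh; split_ifs <;> simp
        rw [e]
        rw [e2] at t2
        constructor <;> linarith
      · intro v
        by_cases hv : v = s
        · subst hv; rw [Function.update_self]; exact hαq
        · rw [Function.update_of_ne hv]; exact hwq v
    · intro W hW
      obtain ⟨U, hU, rfl⟩ := hlift W hW
      have := hS U hU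
      intro x hx
      rw [mem_erase] at hx
      rcases mem_insert.1 (this hx.2) with h | h
      · exact absurd h hx.1
      · exact h
    · exact ⟨notMem_empty s, Or.inl hL0⟩
    · intro A B hA hB
      obtain ⟨U1, hU1, rfl⟩ := hlift A hA
      obtain ⟨U2, hU2, rfl⟩ := hlift B hB
      obtain ⟨l1, l2⟩ := hL U1 U2 hU1 hU2
      rw [← erase_inter', ← erase_union']
      exact ⟨hL'e _ l1, hL'e _ l2⟩
    · intro A B hA hB
      exact tr_sub hL hf hA.1 hB.1 hA.2 hB.2
    · intro A B hA hB
      exact tr_sub hL hh hA.1 hB.1 hA.2 hB.2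
    · -- nonnegativity
      intro W hW
      obtain ⟨U1, hU1, e1, t1⟩ := tr_eq (a := α) (φ := f) hW.1 hW.2
      obtain ⟨U2, hU2, e2, t2⟩ := tr_eq (a := -α) (φ := h) hW.1 hW.2
      rw [t1, t2]
      by_cases h1 : s ∈ U1 <;> by_cases h2 : s ∈ U2
      · have : U1 = U2 := by rw [← insert_erase h1, ← insert_erase h2, e1, e2]
        subst this
        have := hfh U1 hU1
        simp only [sh, if_pos h1]
        linarith
      · have hU2W : U2 = W := by rw [← e2, erase_eq_of_notMem h2]
        have hU1W : U1 = insert s W := by rw [← e1, insert_erase h1]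
        subst hU1W
        subst hU2W
        have := hαu _ hW.1 hU2 hU1
        simp only [sh, if_pos h1, if_neg h2]
        linarith
      · have hU2W : U2 = insert s W := by rw [← e2, insert_erase h2]
        have hU1W : U1 = W := by rw [← e1, erase_eq_of_notMem h1]
        subst hU1W
        subst hU2W
        have := hαl _ hW.1 hU1 hU2
        simp only [sh, if_pos h2, if_neg h1]
        linarith
      · have : U1 = U2 := by
          rw [← erase_eq_of_notMem h1, ← erase_eq_of_notMem h2, e1, e2]
        subst this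
        have := hfh U1 hU1
        simp only [sh, if_neg h1]
        linarith
    · -- value at the empty set
      apply le_antisymm
      · have := tr_le (s := s) (a := α) (φ := f) hL0
        simpa [sh, hf0] using this
      · obtain ⟨U1, hU1, e1, t1⟩ := tr_eq (a := α) (φ := f) (notMem_empty s)
          (Or.inl hL0 : L ∅ ∨ L (insert s ∅))
        rw [t1]
        by_cases h1 : s ∈ U1
        · have hU1W : U1 = insert s ∅ := by rw [← e1, insert_erase h1]
          subst hU1W
          have := hαu _ (notMem_empty s) hL0 hU1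
          simp only [sh, if_pos h1]
          linarith
        · have hU1W : U1 = ∅ := by rw [← e1, erase_eq_of_notMem h1]
          subst hU1W
          simp [sh, hf0]
    · apply le_antisymm
      · have := tr_le (s := s) (a := -α) (φ := h) hL0
        simpa [sh, hh0] using this
      · obtain ⟨U1, hU1, e1, t1⟩ := tr_eq (a := -α) (φ := h) (notMem_empty s)
          (Or.inl hL0 : L ∅ ∨ L (insert s ∅))
        rw [t1]
        by_cases h1 : s ∈ U1
        · have hU1W : U1 = insert s ∅ := by rw [← e1, insert_erase h1]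
          subst hU1W
          have := hαl _ (notMem_empty s) hL0 hU1
          simp only [sh, if_pos h1]
          linarith
        · have hU1W : U1 = ∅ := by rw [← e1, erase_eq_of_notMem h1]
          subst hU1W
          simp [sh, hh0]
    · intro W hW
      obtain ⟨U1, hU1, e1, t1⟩ := tr_eq (a := α) (φ := f) hW.1 hW.2
      rw [t1]
      by_cases h1 : s ∈ U1
      · have hp := pf U1 hU1
        rw [← insert_erase h1, e1, sum_insert hW.1] at hp
        have hU1W : U1 = insert s W := by rw [← e1, insert_erase h1]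
        rw [← hU1W] at hp
        simp only [sh, if_pos h1]
        have e : f U1 - α - ∑ v ∈ W, q v = (f U1 - (q s + ∑ v ∈ W, q v)) - (α - q s) := by ring
        rw [e]
        exact dvd_sub hp hαq
      · have hU1W : U1 = W := by rw [← e1, erase_eq_of_notMem h1]
        subst hU1W
        simpa [sh, h1] using pf _ hU1
    · intro W hW
      obtain ⟨U1, hU1, e1, t1⟩ := tr_eq (a := -α) (φ := h) hW.1 hW.2
      rw [t1]
      by_cases h1 : s ∈ U1
      · have hp := ph U1 hU1
        rw [← insert_erase h1, e1, sum_insert hW.1] at hp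
        have hU1W : U1 = insert s W := by rw [← e1, insert_erase h1]
        rw [← hU1W] at hp
        simp only [sh, if_pos h1]
        have e : h U1 - -α - ∑ v ∈ W, q v =
          (h U1 - (q s + ∑ v ∈ W, q v)) + (α - q s) + 2 * q s := by ring
        rw [e]
        exact dvd_add (dvd_add hp hαq) (dvd_mul_right _ _)
      · have hU1W : U1 = W := by rw [← e1, erase_eq_of_notMem h1]
        subst hU1W
        simpa [sh, h1] using ph _ hU1

end Pool.Agent.K1H51.Trunc
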